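import Mathlib

/-!
# Offline packet routing: a lower bound `9/8` for the optimal constant in `O(C + D)`

Let `c*` be the smallest constant such that every simple path collection with congestion `C` and
dilation `D` can be routed offline within `c* (C + D)` steps.  We give an explicit collection of
8 packets with congestion `2` and dilation `14` that cannot be routed in fewer than `18` steps.
Hence `c* ≥ 18/16 = 9/8`.

The network has 15 levels with two nodes each, all paths go from the level `0` to the level `14`,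
and in every layer each of the four edges is used by exactly two packets.  In a schedule with at
most `17` steps the delay of a packet (crossing step of the `k`-th edge minus `k + 1`) is between
`0` and `3`, it never decreases, and the two packets of an edge have different delays.  The
vectors of delays which are possible after each layer are bounded from below by an explicit
finite list of vectors (`stepLayer`), and after 14 layers this list is empty (`killed`).
-/

set_option autoImplicit false

namespace Pool.Agent.Results.MP_030dc9_lc.NineEighths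

/-- A nonempty simple path collection in a finite directed graph: packet `i` has to traverse the
nodes `node i 0, node i 1, …, node i (len i)`, consecutive nodes are joined by an edge of the
graph, and no node is repeated. -/
structure Collection where
  /-- the set of nodes of the network -/
  V : Type
  /-- the network is finite -/
  fin : Fintype V
  /-- the network, a directed graph -/
  G : Digraph V
  /-- the number of packets -/
  n : ℕ
  pos : 0 < n
  /-- the number of edges of the path of packet `i` -/
  len : Fin n → ℕ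
  /-- the `k`-th node of the path of packet `i`, for `k ≤ len i` -/
  node : Fin n → ℕ → V
  adj : ∀ i k, k < len i → G.Adj (node i k) (node i (k + 1))
  simple : ∀ i k l, k ≤ len i → l ≤ len i → node i k = node i l → k = l

attribute [instance] Collection.fin

namespace Collection

variable (P : Collection)

/-- The `k`-th edge of the path of packet `i`, for `k < len i`. -/
def edge (i : Fin P.n) (k : ℕ) : P.V × P.V := (P.node i k, P.node i (k + 1))

/-- The packets whose path uses the edge `e`. -/
def users (e : P.V × P.V) : Set (Fin P.n) := {i | ∃ k, k < P.len i ∧ P.edge i k = e}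

/-- The congestion: the largest number of paths that use one edge. -/
noncomputable def congestion : ℕ := Finset.univ.sup (fun e : P.V × P.V => (P.users e).ncard)

/-- The dilation: the largest number of edges on a path. -/
def dilation : ℕ := Finset.univ.sup P.len

/-- `P.Routable T`: there is a schedule that delivers all packets within `T` steps; `σ i k` is
the step (numbered `1, 2, …`) in which packet `i` crosses the `k`-th edge of its path. -/
def Routable (T : ℕ) : Prop :=
  ∃ σ : Fin P.n → ℕ → ℕ,
    (∀ i k, k < P.len i → 1 ≤ σ i k ∧ σ i k ≤ T) ∧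
    (∀ i k, k + 1 < P.len i → σ i k < σ i (k + 1)) ∧
    (∀ i j k l, k < P.len i → l < P.len j → i ≠ j → P.edge i k = P.edge j l → σ i k ≠ σ j l)

end Collection

/-! ### The search -/

/-- `w` is above the vector `u`. -/
def Dom (u : List ℕ) (w : ℕ → ℕ) : Prop := ∀ k, u.getD k 0 ≤ w k

/-- Minimal vectors above `u` with different entries at `p.1` and `p.2`. -/
def rep (p : ℕ × ℕ) (u : List ℕ) : List (List ℕ) :=
  if u.getD p.1 0 = u.getD p.2 0 then
    [u.set p.1 (u.getD p.1 0 + 1), u.set p.2 (u.getD p.2 0 + 1)]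
  else [u]

/-- Comparison of vectors. -/
def le : List ℕ → List ℕ → Bool
  | [], _ => true
  | _ :: _, [] => false
  | a :: u, b :: v => Nat.ble a b && le u v

/-- Keep only some of the vectors, so that every vector of the list is above one of them. -/
def prune : List (List ℕ) → List (List ℕ)
  | [] => []
  | x :: L => let K := prune L; if K.any (fun y => le y x) then K else x :: K.filter (fun y => !le x y)

/-- One pair. -/
def stepPair (m : ℕ) (L : List (List ℕ)) (p : ℕ × ℕ) : List (List ℕ) :=
  (L.flatMap (rep p)).filter (fun u => u.all (fun a => Nat.ble a m))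

/-- One layer. -/
def stepLayer (m : ℕ) (L : List (List ℕ)) (ps : List (ℕ × ℕ)) : List (List ℕ) :=
  prune (ps.foldl (stepPair m) L)

/-- Some vector of the list is below `w`. -/
def Good (L : List (List ℕ)) (w : ℕ → ℕ) : Prop := ∃ u ∈ L, Dom u w

lemma getD_set (u : List ℕ) (i a k : ℕ) :
    (u.set i a).getD k 0 = if i = k ∧ k < u.length then a else u.getD k 0 := by
  rw [List.getD_eq_getElem?_getD, List.getD_eq_getElem?_getD, List.getElem?_set]
  by_cases h : i = k
  · subst h
    by_cases h2 : i < u.length
    · simp [h2]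
    · simp [h2]
  · simp [h]

lemma dom_set {u : List ℕ} {w : ℕ → ℕ} (h : Dom u w) {i a : ℕ} (ha : a ≤ w i) :
    Dom (u.set i a) w := by
  intro k
  rw [getD_set]
  split_ifs with hk
  · rw [← hk.1]; exact ha
  · exact h k

lemma rep_good {p : ℕ × ℕ} {u : List ℕ} {w : ℕ → ℕ} (h : Dom u w) (hp : w p.1 ≠ w p.2) :
    Good (rep p u) w := by
  unfold rep
  split_ifs with heq
  · have h1 := h p.1
    have h2 := h p.2
    rcases lt_or_gt_of_ne hp with h3 | h3
    · exact ⟨_, by simp, dom_set h (i := p.2) (a := u.getD p.2 0 + 1) (by omega)⟩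
    · exact ⟨_, by simp, dom_set h (i := p.1) (a := u.getD p.1 0 + 1) (by omega)⟩
  · exact ⟨u, by simp, h⟩

lemma dom_le : ∀ {u v : List ℕ} {w : ℕ → ℕ}, le u v = true → Dom v w → Dom u w
  | [], _, _, _, _ => by intro k; simp
  | _ :: _, [], _, h, _ => by simp [le] at h
  | a :: u, b :: v, w, h, hv => by
    simp only [le, Bool.and_eq_true, Nat.ble_eq] at h
    have hv' : Dom v (fun k => w (k + 1)) := fun k => by
      have := hv (k + 1); simpa using this
    have ih := dom_le h.2 hv'
    intro k
    cases k with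
    | zero => have := hv 0; simp at this ⊢; omega
    | succ k => have := ih k; simpa using this

lemma prune_good : ∀ {L : List (List ℕ)} {w : ℕ → ℕ}, Good L w → Good (prune L) w
  | [], _, h => h
  | x :: L, w, h => by
    obtain ⟨u, hu, hd⟩ := h
    have key : Good (prune L) w ∨ Dom x w := by
      rcases List.mem_cons.1 hu with rfl | hu
      · exact Or.inr hd
      · exact Or.inl (prune_good ⟨u, hu, hd⟩)
    simp only [prune]
    split_ifs with hc
    · rcases key with h | h
      · exact h
      · obtain ⟨y, hy, hyx⟩ := List.any_eq_true.1 hc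
        exact ⟨y, hy, dom_le hyx h⟩
    · rcases key with h | h
      · obtain ⟨y, hy, hyd⟩ := h
        by_cases hxy : le x y = true
        · exact ⟨x, by simp, dom_le hxy hyd⟩
        · exact ⟨y, by simp [hy, hxy], hyd⟩
      · exact ⟨x, by simp, h⟩

lemma stepPair_good {m : ℕ} {L : List (List ℕ)} {w : ℕ → ℕ} (h : Good L w) (hm : ∀ k, w k ≤ m)
    {p : ℕ × ℕ} (hp : w p.1 ≠ w p.2) : Good (stepPair m L p) w := by
  obtain ⟨u, hu, hd⟩ := h
  obtain ⟨v, hv, hvd⟩ := rep_good hd hp
  refine ⟨v, ?_, hvd⟩
  unfold stepPair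
  rw [List.mem_filter]
  refine ⟨List.mem_flatMap.2 ⟨u, hu, hv⟩, ?_⟩
  rw [List.all_eq_true]
  intro a ha
  obtain ⟨k, hk, rfl⟩ := List.getElem_of_mem ha
  have := hvd k
  rw [List.getD_eq_getElem v 0 hk] at this
  rw [Nat.ble_eq]
  exact this.trans (hm k)

lemma foldl_good {m : ℕ} {w : ℕ → ℕ} (hm : ∀ k, w k ≤ m) :
    ∀ (ps : List (ℕ × ℕ)) {L : List (List ℕ)}, Good L w → (∀ p ∈ ps, w p.1 ≠ w p.2) →
      Good (ps.foldl (stepPair m) L) w
  | [], _, h, _ => h
  | p :: ps, L, h, hp => by
    rw [List.foldl_cons]
    exact foldl_good hm ps (stepPair_good h hm (hp p (by simp))) (fun q hq => hp q (by simp [hq]))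

lemma stepLayer_good {m : ℕ} {L : List (List ℕ)} {w : ℕ → ℕ} (h : Good L w) (hm : ∀ k, w k ≤ m)
    {ps : List (ℕ × ℕ)} (hp : ∀ p ∈ ps, w p.1 ≠ w p.2) : Good (stepLayer m L ps) w :=
  prune_good (foldl_good hm ps h hp)

lemma good_mono {L : List (List ℕ)} {w w' : ℕ → ℕ} (h : Good L w) (hw : ∀ k, w k ≤ w' k) :
    Good L w' := by
  obtain ⟨u, hu, hd⟩ := h
  exact ⟨u, hu, fun k => (hd k).trans (hw k)⟩

/-- All layers. -/
def run (m : ℕ) (Ms : List (List (ℕ × ℕ))) (L : List (List ℕ)) : List (List ℕ) :=
  Ms.foldl (stepLayer m) L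

lemma run_good {m : ℕ} : ∀ (Ms : List (List (ℕ × ℕ))) (w : ℕ → ℕ → ℕ) {L : List (List ℕ)},
    Good L (w 0) → (∀ l k, w l k ≤ m) → (∀ l k, w l k ≤ w (l + 1) k) →
    (∀ l (h : l < Ms.length), ∀ p ∈ Ms[l], w l p.1 ≠ w l p.2) → ∃ w', Good (run m Ms L) w'
  | [], w, L, h, _, _, _ => ⟨w 0, h⟩
  | M :: Ms, w, L, h, hm, hw, hp => by
    have h0 : Good (stepLayer m L M) (w 0) := stepLayer_good h (hm 0) (hp 0 (by simp))
    exact run_good Ms (fun l => w (l + 1)) (good_mono h0 (hw 0)) (fun l => hm (l + 1))
      (fun l => hw (l + 1)) (fun l hl => hp (l + 1) (by simpa using hl))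

lemma no_run {m : ℕ} (Ms : List (List (ℕ × ℕ))) {L : List (List ℕ)} (w : ℕ → ℕ → ℕ)
    (hL : Good L (w 0)) (hrun : run m Ms L = []) (hm : ∀ l k, w l k ≤ m)
    (hw : ∀ l k, w l k ≤ w (l + 1) k)
    (hp : ∀ l (h : l < Ms.length), ∀ p ∈ Ms[l], w l p.1 ≠ w l p.2) : False := by
  obtain ⟨w', u, hu, _⟩ := run_good Ms w hL hm hw hp
  rw [hrun] at hu
  simp at hu

/-! ### The instance -/

/-- The pairs of packets which share an edge, layer by layer. -/
def pairs : List (List (ℕ × ℕ)) := [
  [(0, 1), (2, 3), (4, 5), (6, 7)],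
  [(0, 4), (1, 5), (2, 6), (3, 7)],
  [(0, 2), (4, 6), (1, 3), (5, 7)],
  [(0, 3), (1, 2), (4, 7), (5, 6)],
  [(0, 7), (3, 4), (1, 6), (2, 5)],
  [(0, 5), (2, 7), (1, 4), (3, 6)],
  [(0, 6), (3, 5), (1, 7), (2, 4)],
  [(0, 2), (4, 6), (1, 3), (5, 7)],
  [(0, 3), (1, 2), (4, 7), (5, 6)],
  [(0, 5), (3, 6), (1, 4), (2, 7)],
  [(0, 1), (4, 5), (2, 3), (6, 7)],
  [(0, 6), (1, 7), (2, 4), (3, 5)],
  [(0, 4), (2, 6), (1, 5), (3, 7)],
  [(0, 1), (4, 5), (2, 7), (3, 6)]]

set_option maxRecDepth 100000 in
theorem killed : run 3 pairs [[0, 0, 0, 0, 0, 0, 0, 0]] = [] := by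
  decide +kernel

/-- The eight packets are in two nodes of every level `0, …, 14`; the `i`-th binary digit of the
`l`-th number tells in which node of level `l` the packet `i` is. -/
def codes : List ℕ := [240, 204, 170, 240, 102, 90, 150, 170, 240, 150, 204, 60, 170, 204, 120]

/-- The node of level `l` in which the packet `i` is. -/
def bit (l i : ℕ) : Bool := (codes.getD l 0).testBit i

lemma bit_pairs : ∀ l < 14, ∀ p ∈ pairs.getD l [], p.1 < 8 ∧ p.2 < 8 ∧ p.1 ≠ p.2 ∧
    bit l p.1 = bit l p.2 ∧ bit (l + 1) p.1 = bit (l + 1) p.2 := by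
  decide +kernel

lemma card_le : ∀ l < 14, ∀ x y : Bool,
    (Finset.univ.filter (fun i : Fin 8 => bit l i = x ∧ bit (l + 1) i = y)).card ≤ 2 := by
  decide +kernel

lemma card_zero :
    (Finset.univ.filter (fun i : Fin 8 => bit 0 i = bit 0 0 ∧ bit 1 i = bit 1 0)).card = 2 := by
  decide +kernel

/-- The network has the 15 levels `0, …, 14` with two nodes each, and all edges from one level to
the next one. -/
abbrev inst : Collection where
  V := Fin 15 × Bool
  fin := inferInstance
  G := { Adj := fun a b => (b.1 : ℕ) = a.1 + 1 }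
  n := 8
  pos := by norm_num
  len := fun _ => 14
  node := fun i k => (⟨min k 14, by omega⟩, bit k i)
  adj := by
    intro i k hk
    show min (k + 1) 14 = min k 14 + 1
    omega
  simple := by
    intro i k l hk hl h
    have h1 := congrArg (fun a : Fin 15 × Bool => (a.1 : ℕ)) h
    simp only at h1
    omega

lemma edge_eq {i j : Fin 8} {k l : ℕ} (hk : k < 14) (hl : l < 14)
    (h : inst.edge i k = inst.edge j l) : k = l ∧ bit k i = bit k j ∧ bit (k + 1) i = bit (k + 1) j := by
  have h1 := congrArg (fun e : (Fin 15 × Bool) × (Fin 15 × Bool) => (e.1.1 : ℕ)) h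
  have h2 := congrArg (fun e : (Fin 15 × Bool) × (Fin 15 × Bool) => e.1.2) h
  have h3 := congrArg (fun e : (Fin 15 × Bool) × (Fin 15 × Bool) => e.2.2) h
  simp only [Collection.edge, inst] at h1 h2 h3
  have hkl : k = l := by omega
  subst hkl
  exact ⟨rfl, h2, h3⟩

lemma edge_of_bits {i j : Fin 8} {k : ℕ} (h1 : bit k i = bit k j)
    (h2 : bit (k + 1) i = bit (k + 1) j) : inst.edge i k = inst.edge j k := by
  simp only [Collection.edge, inst, h1, h2]

lemma users_le (e : inst.V × inst.V) : (inst.users e).ncard ≤ 2 := by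
  rcases (inst.users e).eq_empty_or_nonempty with h | ⟨i, k, hk, rfl⟩
  · rw [h]; simp
  · have hk' : k < 14 := hk
    have hsub : inst.users (inst.edge i k) ⊆
        ((Finset.univ.filter (fun j : Fin 8 => bit k j = bit k i ∧ bit (k + 1) j = bit (k + 1) i) :
          Finset (Fin 8)) : Set (Fin 8)) := by
      rintro j ⟨l, hl, hj⟩
      obtain ⟨hlk, h1, h2⟩ := edge_eq (show l < 14 from hl) hk' hj
      subst hlk
      simp [h1, h2]
    calc (inst.users (inst.edge i k)).ncard ≤ _ := Set.ncard_le_ncard hsub (Finset.finite_toSet _)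
      _ ≤ 2 := by
        rw [Set.ncard_coe_finset]
        exact card_le k hk' _ _

lemma congestion_inst : inst.congestion = 2 := by
  apply le_antisymm
  · exact Finset.sup_le (fun e _ => users_le e)
  · have h : (inst.users (inst.edge (0 : Fin 8) 0)).ncard = 2 := by
      apply le_antisymm (users_le _)
      rw [← card_zero, ← Set.ncard_coe_finset]
      apply Set.ncard_le_ncard _ (Set.toFinite _)
      intro j hj
      simp only [Finset.coe_filter, Finset.mem_univ, true_and, Set.mem_ofPred_eq] at hj
      exact ⟨0, by show 0 < 14; norm_num, edge_of_bits hj.1 hj.2⟩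
    rw [← h]
    exact Finset.le_sup (f := fun e : inst.V × inst.V => (inst.users e).ncard) (Finset.mem_univ _)

lemma dilation_inst : inst.dilation = 14 := by
  apply le_antisymm
  · exact Finset.sup_le (fun i _ => le_refl 14)
  · exact Finset.le_sup (f := inst.len) (Finset.mem_univ (0 : Fin 8))

lemma not_routable {T : ℕ} (h : inst.Routable T) : 18 ≤ T := by
  by_contra hT
  push Not at hT
  obtain ⟨σ, hr, hs, he⟩ := h
  have hr' : ∀ (i : Fin 8) (k : ℕ), k < 14 → 1 ≤ σ i k ∧ σ i k ≤ T := hr
  have hs' : ∀ (i : Fin 8) (k : ℕ), k + 1 < 14 → σ i k < σ i (k + 1) := hs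
  have lower : ∀ (i : Fin 8) (k : ℕ), k < 14 → k + 1 ≤ σ i k := by
    intro i k
    induction k with
    | zero => intro hk; exact (hr' i 0 hk).1
    | succ k ih => intro hk; have := ih (by omega); have := hs' i k hk; omega
  have upper : ∀ (i : Fin 8) (d k : ℕ), k + d = 13 → σ i k + d ≤ T := by
    intro i d
    induction d with
    | zero => intro k hk; exact (hr' i k (by omega)).2
    | succ d ih => intro k hk; have := ih (k + 1) (by omega); have := hs' i k (by omega); omega
  let w : ℕ → ℕ → ℕ := fun l k =>
    if h : k < 8 then σ (⟨k, h⟩ : Fin 8) (min l 13) - (min l 13 + 1) else 0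
  have hw : ∀ l k (h : k < 8), w l k = σ (⟨k, h⟩ : Fin 8) (min l 13) - (min l 13 + 1) := by
    intro l k h; simp only [w, dif_pos h]
  have hw0 : ∀ l k, ¬ k < 8 → w l k = 0 := by
    intro l k h; simp only [w, dif_neg h]
  refine no_run (m := 3) pairs (L := [[0, 0, 0, 0, 0, 0, 0, 0]]) w ?_ killed ?_ ?_ ?_
  · refine ⟨[0, 0, 0, 0, 0, 0, 0, 0], by simp, fun k => ?_⟩
    have : ([0, 0, 0, 0, 0, 0, 0, 0] : List ℕ).getD k 0 = 0 := by
      rcases lt_or_ge k 8 with h | h
      · interval_cases k <;> rfl
      · exact List.getD_eq_default _ _ h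
    rw [this]; exact Nat.zero_le _
  · intro l k
    by_cases h : k < 8
    · rw [hw l k h]
      have := upper ⟨k, h⟩ (13 - min l 13) (min l 13) (by omega)
      omega
    · rw [hw0 l k h]; omega
  · intro l k
    by_cases h : k < 8
    · rw [hw l k h, hw (l + 1) k h]
      rcases lt_or_ge l 13 with hl | hl
      · have h1 : min l 13 = l := by omega
        have h2 : min (l + 1) 13 = l + 1 := by omega
        rw [h1, h2]
        have := hs' ⟨k, h⟩ l (by omega)
        omega
      · have h1 : min l 13 = 13 := by omega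
        have h2 : min (l + 1) 13 = 13 := by omega
        rw [h1, h2]
    · rw [hw0 l k h, hw0 (l + 1) k h]
  · intro l hl p hp
    have hl' : l < 14 := hl
    have hp' : p ∈ pairs.getD l [] := by
      rw [List.getD_eq_getElem _ _ hl]; exact hp
    obtain ⟨h1, h2, hne, hb1, hb2⟩ := bit_pairs l hl' p hp'
    have hmin : min l 13 = l := by omega
    rw [hw l p.1 h1, hw l p.2 h2, hmin]
    have hedge : inst.edge (⟨p.1, h1⟩ : Fin 8) l = inst.edge (⟨p.2, h2⟩ : Fin 8) l :=
      edge_of_bits hb1 hb2
    have hσ : σ (⟨p.1, h1⟩ : Fin 8) l ≠ σ (⟨p.2, h2⟩ : Fin 8) l :=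
      he _ _ l l hl' hl' (fun h => hne (by simpa using congrArg Fin.val h)) hedge
    have a := lower ⟨p.1, h1⟩ l hl'
    have b := lower ⟨p.2, h2⟩ l hl'
    omega

/-- **Main result.**  (1) There is a simple path collection with congestion `2` and dilation `14`
which cannot be routed in fewer than `18` steps.  (2) If every simple path collection with
congestion `C` and dilation `D` can be routed within `c (C + D)` steps, then `c ≥ 9/8`. -/
theorem result :
    (∃ P : Collection, P.congestion = 2 ∧ P.dilation = 14 ∧ ∀ T, P.Routable T → 18 ≤ T) ∧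
    ∀ c : ℝ, (∀ P : Collection, ∃ T : ℕ, P.Routable T ∧
      (T : ℝ) ≤ c * ((P.congestion : ℝ) + (P.dilation : ℝ))) → 9 / 8 ≤ c := by
  refine ⟨⟨inst, congestion_inst, dilation_inst, fun T hT => not_routable hT⟩, fun c hc => ?_⟩
  obtain ⟨T, hT, hle⟩ := hc inst
  have h18 : (18 : ℝ) ≤ (T : ℝ) := by exact_mod_cast not_routable hT
  rw [congestion_inst, dilation_inst] at hle
  push_cast at hle
  linarith

end Pool.Agent.Results.MP_030dc9_lc.NineEighths
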